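import Mathlib

open scoped Manifold ContDiff

namespace Pool.Agent.Results.MP_a41668_al.HeisenbergQuandle

/-- A smooth quandle structure on a smooth `n`-manifold `X`: a smooth binary operation
`op x y = x ▷ y` satisfying the three quandle axioms. -/
structure SmoothQuandle (n : ℕ) (X : Type*) [TopologicalSpace X]
    [ChartedSpace (EuclideanSpace ℝ (Fin n)) X] where
  /-- the operation `x ▷ y` -/
  op : X → X → X
  idem : ∀ x, op x x = x
  bij : ∀ y, Function.Bijective (fun x => op x y)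
  distrib : ∀ x y z, op (op x y) z = op (op x z) (op y z)
  smooth : ContMDiff ((𝓡 n).prod (𝓡 n)) (𝓡 n) ∞ (fun p : X × X => op p.1 p.2)

variable {n : ℕ} {X : Type*} [TopologicalSpace X] [ChartedSpace (EuclideanSpace ℝ (Fin n)) X]

/-- The right translation `S_y : x ↦ x ▷ y`, as a permutation of `X`. -/
noncomputable def SmoothQuandle.S (Q : SmoothQuandle n X) (y : X) : Equiv.Perm X :=
  Equiv.ofBijective (fun x => Q.op x y) (Q.bij y)

/-- `Inn(X)`, the group of permutations of `X` generated by all the `S_y`. -/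
noncomputable def SmoothQuandle.Inn (Q : SmoothQuandle n X) : Subgroup (Equiv.Perm X) :=
  Subgroup.closure (Set.range Q.S)

/-- Algebraic connectedness: `Inn(X)` acts transitively on `X`. -/
def SmoothQuandle.AlgebraicallyConnected (Q : SmoothQuandle n X) : Prop :=
  ∀ x y : X, ∃ g ∈ Q.Inn, g x = y

/-- The underlying space `ℝ³`. -/
abbrev E3 := EuclideanSpace ℝ (Fin 3)

/-- The operation on `ℝ³`:
`(a, b, c) ▷ (a', b', c') = (2a' - a, 2b' - b, c - (a b' - b a'))`. -/
noncomputable def hop (x y : E3) : E3 :=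
  !₂[2 * y 0 - x 0, 2 * y 1 - x 1, x 2 - (x 0 * y 1 - x 1 * y 0)]

lemma hop_zero (x y : E3) : hop x y 0 = 2 * y 0 - x 0 := by simp [hop]
lemma hop_one (x y : E3) : hop x y 1 = 2 * y 1 - x 1 := by simp [hop]
lemma hop_two (x y : E3) : hop x y 2 = x 2 - (x 0 * y 1 - x 1 * y 0) := by simp [hop]

lemma ext3 {x y : E3} (h0 : x 0 = y 0) (h1 : x 1 = y 1) (h2 : x 2 = y 2) : x = y := by
  ext i
  fin_cases i
  · exact h0
  · exact h1
  · exact h2

lemma hop_hop (x y : E3) : hop (hop x y) y = x := by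
  apply ext3 <;> simp only [hop_zero, hop_one, hop_two] <;> ring

lemma hop_idem (x : E3) : hop x x = x := by
  apply ext3 <;> simp only [hop_zero, hop_one, hop_two] <;> ring

lemma hop_distrib (x y z : E3) : hop (hop x y) z = hop (hop x z) (hop y z) := by
  apply ext3 <;> simp only [hop_zero, hop_one, hop_two] <;> ring

lemma hop_bij (y : E3) : Function.Bijective (fun x => hop x y) :=
  Function.Involutive.bijective (fun x => hop_hop x y)

lemma hop_smooth : ContMDiff ((𝓡 3).prod (𝓡 3)) (𝓡 3) ∞ (fun p : E3 × E3 => hop p.1 p.2) := by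
  have h : ContDiff ℝ ∞ (fun p : E3 × E3 => hop p.1 p.2) := by
    rw [contDiff_euclidean]
    intro i
    fin_cases i
    · simp only [hop, Fin.zero_eta, Fin.isValue, PiLp.toLp_apply, Matrix.cons_val_zero]
      fun_prop
    · simp only [hop, Fin.mk_one, Fin.isValue, PiLp.toLp_apply, Matrix.cons_val_one,
        Matrix.cons_val_zero]
      fun_prop
    · simp only [hop, Fin.reduceFinMk, Fin.isValue, PiLp.toLp_apply, Matrix.cons_val]
      fun_prop
  rw [← modelWithCornersSelf_prod, chartedSpaceSelf_prod]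
  exact h.contMDiff

/-- The smooth quandle structure `hop` on `ℝ³`. -/
noncomputable def heis : SmoothQuandle 3 E3 where
  op := hop
  idem := hop_idem
  bij := hop_bij
  distrib := hop_distrib
  smooth := hop_smooth

lemma heis_S (y x : E3) : heis.S y x = hop x y := rfl

lemma S_mem (y : E3) : heis.S y ∈ heis.Inn := Subgroup.subset_closure ⟨y, rfl⟩

lemma heis_step (x y : E3) (h : x 0 ≠ y 0) : ∃ g ∈ heis.Inn, g x = y := by
  have h' : y 0 - x 0 ≠ 0 := sub_ne_zero.mpr (Ne.symm h)
  let β : ℝ := (y 2 - x 2 - (x 0 * ((y 1 - x 1) / 2) - x 1 * ((y 0 - x 0) / 2))) / (y 0 - x 0)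
  let b : E3 := !₂[0, β, 0]
  let a : E3 := !₂[(y 0 - x 0) / 2, β + (y 1 - x 1) / 2, 0]
  have hb0 : b 0 = 0 := by simp [b]
  have hb1 : b 1 = β := by simp [b]
  have ha0 : a 0 = (y 0 - x 0) / 2 := by simp [a]
  have ha1 : a 1 = β + (y 1 - x 1) / 2 := by simp [a]
  have hβ : β * (y 0 - x 0) =
      y 2 - x 2 - (x 0 * ((y 1 - x 1) / 2) - x 1 * ((y 0 - x 0) / 2)) :=
    div_mul_cancel₀ _ h'
  refine ⟨heis.S a * heis.S b, mul_mem (S_mem a) (S_mem b), ?_⟩
  rw [Equiv.Perm.mul_apply, heis_S, heis_S]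
  apply ext3
  · simp only [hop_zero, ha0, hb0]; ring
  · simp only [hop_one, ha1, hb1]; ring
  · simp only [hop_zero, hop_one, hop_two, ha0, hb0, ha1, hb1]
    linear_combination hβ

lemma heis_connected : heis.AlgebraicallyConnected := by
  intro x y
  let z : E3 := !₂[max (x 0) (y 0) + 1, 0, 0]
  have hz : z 0 = max (x 0) (y 0) + 1 := by simp [z]
  have h1 : x 0 ≠ z 0 := by
    rw [hz]; have := le_max_left (x 0) (y 0); intro h; linarith
  have h2 : z 0 ≠ y 0 := by
    rw [hz]; have := le_max_right (x 0) (y 0); intro h; linarith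
  obtain ⟨g, hg, hgx⟩ := heis_step x z h1
  obtain ⟨k, hk, hky⟩ := heis_step z y h2
  exact ⟨k * g, mul_mem hk hg, by rw [Equiv.Perm.mul_apply, hgx, hky]⟩

/-- The points `(0, 0, c)`. -/
noncomputable def pt (c : ℝ) : E3 := !₂[0, 0, c]

lemma pt_ne : pt 2 ≠ pt 0 := by
  intro h
  have := congrArg (fun v : E3 => v 2) h
  simp [pt] at this

lemma hop_pt (x : E3) (c : ℝ) : hop x (pt c) = hop x (pt 0) := by
  apply ext3 <;> simp [hop, pt]

/-- Four right translations move `(0,0,s)` to `(0,0,s+1)`. -/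
lemma move (s : ℝ) :
    hop (hop (hop (hop (pt s) !₂[0, 1/2, 0]) !₂[1, 1/2, 0]) !₂[0, 0, 0]) !₂[-1, 0, 0]
      = pt (s + 1) := by
  apply ext3 <;> simp [hop, pt]

theorem not_embeddable (G : Type*) [Group G] :
    ¬ ∃ f : E3 → G, Function.Injective f ∧
      ∀ x y, f (hop x y) = (f y)⁻¹ * f x * f y := by
  rintro ⟨f, hinj, hf⟩
  -- squares are central
  have hsq : ∀ x y, (f y * f y) * f x = f x * (f y * f y) := by
    intro x y
    have h := hf (hop x y) y
    rw [hop_hop, hf] at h
    calc (f y * f y) * f x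
        = (f y * f y) * ((f y)⁻¹ * ((f y)⁻¹ * f x * f y) * f y) := by rw [← h]
      _ = f x * (f y * f y) := by group
  obtain ⟨H, hH, hHc⟩ : ∃ H : G, (∀ s, f (pt (s + 1)) = H⁻¹ * f (pt s) * H) ∧
      (∀ k : G, (∀ x, k * f x = f x * k) → k * H = H * k) := by
    refine ⟨f !₂[0, 1/2, 0] * f !₂[1, 1/2, 0] * f !₂[0, 0, 0] * f !₂[-1, 0, 0], ?_, ?_⟩
    · intro s
      rw [← move s, hf, hf, hf, hf]
      group
    · intro k hk
      have hc : ∀ x, Commute k (f x) := fun x => hk x
      exact (((hc _).mul_right (hc _)).mul_right (hc _)).mul_right (hc _)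
  -- the quotient of `f (pt 1)` and `f (pt 0)` is central
  set k : G := f (pt 1) * (f (pt 0))⁻¹ with hk
  have hkc : ∀ x, k * f x = f x * k := by
    intro x
    have h : (f (pt 1))⁻¹ * f x * f (pt 1) = (f (pt 0))⁻¹ * f x * f (pt 0) := by
      rw [← hf, ← hf, hop_pt]
    have h2 : f x * f (pt 1) * (f (pt 0))⁻¹ = f (pt 1) * (f (pt 0))⁻¹ * f x := by
      calc f x * f (pt 1) * (f (pt 0))⁻¹
          = f (pt 1) * ((f (pt 1))⁻¹ * f x * f (pt 1)) * (f (pt 0))⁻¹ := by group
        _ = f (pt 1) * ((f (pt 0))⁻¹ * f x * f (pt 0)) * (f (pt 0))⁻¹ := by rw [h]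
        _ = f (pt 1) * (f (pt 0))⁻¹ * f x := by group
    rw [hk, ← h2, mul_assoc]
  have h1 : f (pt 1) = k * f (pt 0) := by rw [hk]; group
  have hkH := hHc k hkc
  have h2 : f (pt 2) = k * f (pt 1) := by
    have e1 := hH 1
    have e0 := hH 0
    norm_num at e1 e0
    calc f (pt 2) = H⁻¹ * f (pt 1) * H := e1
      _ = H⁻¹ * (k * f (pt 0)) * H := by rw [h1]
      _ = H⁻¹ * (f (pt 0) * k) * H := by rw [hkc]
      _ = H⁻¹ * f (pt 0) * (k * H) := by group
      _ = H⁻¹ * f (pt 0) * (H * k) := by rw [hkH]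
      _ = (H⁻¹ * f (pt 0) * H) * k := by group
      _ = f (pt 1) * k := by rw [← e0]
      _ = k * f (pt 1) := (hkc _).symm
  -- squares agree, so `k ^ 2 = 1`
  have hs : f (pt 1) * f (pt 1) = f (pt 0) * f (pt 0) := by
    have e0 := hH 0
    norm_num at e0
    have hcen := hHc (f (pt 0) * f (pt 0)) (fun x => hsq x (pt 0))
    calc f (pt 1) * f (pt 1) = (H⁻¹ * f (pt 0) * H) * (H⁻¹ * f (pt 0) * H) := by rw [← e0]
      _ = H⁻¹ * ((f (pt 0) * f (pt 0)) * H) := by group
      _ = H⁻¹ * (H * (f (pt 0) * f (pt 0))) := by rw [hcen]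
      _ = f (pt 0) * f (pt 0) := by group
  have hkk : k * k = 1 := by
    have : k * k * (f (pt 0) * f (pt 0)) = f (pt 0) * f (pt 0) := by
      calc k * k * (f (pt 0) * f (pt 0)) = k * (k * f (pt 0)) * f (pt 0) := by group
        _ = k * (f (pt 0) * k) * f (pt 0) := by rw [hkc]
        _ = (k * f (pt 0)) * (k * f (pt 0)) := by group
        _ = f (pt 1) * f (pt 1) := by rw [← h1]
        _ = f (pt 0) * f (pt 0) := hs
    exact mul_eq_right.mp this
  have hfin : f (pt 2) = f (pt 0) := by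
    rw [h2, h1, ← mul_assoc, hkk, one_mul]
  exact pt_ne (hinj hfin)

/-- There is a smooth quandle on a smooth (Hausdorff, second countable) 3-manifold, topologically
connected and algebraically connected, which admits no injective quandle homomorphism into the
conjugation quandle of any group. -/
theorem result :
    ∃ (X : Type) (_ : TopologicalSpace X) (_ : T2Space X) (_ : SecondCountableTopology X)
      (_ : ChartedSpace (EuclideanSpace ℝ (Fin 3)) X) (_ : IsManifold (𝓡 3) ∞ X)
      (Q : SmoothQuandle 3 X),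
      ConnectedSpace X ∧ Q.AlgebraicallyConnected ∧
      ∀ (G : Type*) [Group G],
        ¬ ∃ f : X → G, Function.Injective f ∧ ∀ x y, f (Q.op x y) = (f y)⁻¹ * f x * f y :=
  ⟨E3, inferInstance, inferInstance, inferInstance, inferInstance, inferInstance, heis,
    inferInstance, heis_connected, fun G _ => not_embeddable G⟩

end Pool.Agent.Results.MP_a41668_al.HeisenbergQuandle
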